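import Mathlib

set_option autoImplicit false

open scoped InnerProductSpace Topology
open Filter

namespace Pool.Agent.Helper278

variable {H : Type*} [NormedAddCommGroup H] [InnerProductSpace ℂ H] [CompleteSpace H]

/-- The closed unit ball of `B(H)` is compact in the weak operator topology. -/
theorem isCompact_wot_ball :
    IsCompact {T : H →WOT[ℂ] H | ‖T.toCLM‖ ≤ 1} := by
  rw [isCompact_iff_ultrafilter_le_nhds]
  intro G hG
  have hmem : {T : H →WOT[ℂ] H | ‖T.toCLM‖ ≤ 1} ∈ G := by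
    simpa using hG
  -- pointwise limits
  have hlim : ∀ x y : H, ∃ c : ℂ, ‖c‖ ≤ ‖x‖ * ‖y‖ ∧
      Tendsto (fun T : H →WOT[ℂ] H => ⟪x, T y⟫_ℂ) G (𝓝 c) := by
    intro x y
    have hc : IsCompact (Metric.closedBall (0 : ℂ) (‖x‖ * ‖y‖)) := isCompact_closedBall _ _
    have h1 : (G.map (fun T : H →WOT[ℂ] H => ⟪x, T y⟫_ℂ) : Ultrafilter ℂ) ≤
        𝓟 (Metric.closedBall (0 : ℂ) (‖x‖ * ‖y‖)) := by
      rw [Ultrafilter.coe_map, le_principal_iff, mem_map]
      refine mem_of_superset hmem ?_
      intro T hT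
      have hT' : ‖T.toCLM‖ ≤ 1 := hT
      simp only [Set.mem_preimage, mem_closedBall_zero_iff]
      calc ‖⟪x, T y⟫_ℂ‖ ≤ ‖x‖ * ‖T y‖ := norm_inner_le_norm _ _
        _ ≤ ‖x‖ * (1 * ‖y‖) := by
            refine mul_le_mul_of_nonneg_left ?_ (norm_nonneg _)
            exact T.toCLM.le_of_opNorm_le hT' y
        _ = ‖x‖ * ‖y‖ := by ring
    obtain ⟨c, hc1, hc2⟩ := (isCompact_iff_ultrafilter_le_nhds.1 hc) _ h1
    exact ⟨c, by simpa using hc1, hc2⟩
  choose B hB1 hB2 using hlim
  have hne : (G : Filter (H →WOT[ℂ] H)).NeBot := G.neBot'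
  -- the limit is sesquilinear
  have hadd : ∀ x y z, B x (y + z) = B x y + B x z := by
    intro x y z
    refine tendsto_nhds_unique (hB2 x (y + z)) ?_
    have := (hB2 x y).add (hB2 x z)
    refine this.congr ?_
    intro T
    simp
  have hsmul : ∀ x (c : ℂ) y, B x (c • y) = c * B x y := by
    intro x c y
    refine tendsto_nhds_unique (hB2 x (c • y)) ?_
    have := (hB2 x y).const_mul c
    refine this.congr ?_
    intro T
    simp
  have hadd' : ∀ x y z, B (x + y) z = B x z + B y z := by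
    intro x y z
    refine tendsto_nhds_unique (hB2 (x + y) z) ?_
    have := (hB2 x z).add (hB2 y z)
    refine this.congr ?_
    intro T
    simp
  have hsmul' : ∀ x (c : ℂ) y, B (c • x) y = (starRingEnd ℂ) c * B x y := by
    intro x c y
    refine tendsto_nhds_unique (hB2 (c • x) y) ?_
    have := (hB2 x y).const_mul ((starRingEnd ℂ) c)
    refine this.congr ?_
    intro T
    simp [mul_comm]
  -- build the operator
  let L : H →ₗ⋆[ℂ] H →ₗ[ℂ] ℂ :=
    LinearMap.mk₂'ₛₗ (starRingEnd ℂ) (RingHom.id ℂ) B hadd' (fun c x y => hsmul' x c y) hadd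
      (fun c x y => hsmul x c y)
  let Bc : H →L⋆[ℂ] H →L[ℂ] ℂ := L.mkContinuous₂ 1 (by
    intro x y
    simpa [L] using hB1 x y)
  have hBc : ∀ x y, Bc x y = B x y := by
    intro x y
    rfl
  let S : H →L[ℂ] H := InnerProductSpace.continuousLinearMapOfBilin Bc
  have hS : ∀ x y, ⟪S x, y⟫_ℂ = B x y := by
    intro x y
    rw [InnerProductSpace.continuousLinearMapOfBilin_apply, hBc]
  let T : H →WOT[ℂ] H := ContinuousLinearMapWOT.ofCLM (ContinuousLinearMap.adjoint S)
  have hT : ∀ x y, ⟪x, T y⟫_ℂ = B x y := by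
    intro x y
    have : T y = ContinuousLinearMap.adjoint S y := rfl
    rw [this, ContinuousLinearMap.adjoint_inner_right, hS]
  refine ⟨T, ?_, ?_⟩
  · show ‖ContinuousLinearMap.adjoint S‖ ≤ 1
    refine ContinuousLinearMap.opNorm_le_bound _ zero_le_one ?_
    intro y
    have h1 : ‖ContinuousLinearMap.adjoint S y‖ ^ 2 ≤
        ‖ContinuousLinearMap.adjoint S y‖ * ‖y‖ := by
      have h2 : ⟪ContinuousLinearMap.adjoint S y, T y⟫_ℂ = B (ContinuousLinearMap.adjoint S y) y :=
        hT _ _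
      have h3 : T y = ContinuousLinearMap.adjoint S y := rfl
      rw [h3, inner_self_eq_norm_sq_to_K] at h2
      have h4 := hB1 (ContinuousLinearMap.adjoint S y) y
      rw [← h2] at h4
      simpa using h4
    rcases eq_or_lt_of_le (norm_nonneg (ContinuousLinearMap.adjoint S y)) with h0 | h0
    · rw [← h0]; positivity
    · rw [one_mul]
      have : ‖ContinuousLinearMap.adjoint S y‖ * ‖ContinuousLinearMap.adjoint S y‖ ≤
        ‖ContinuousLinearMap.adjoint S y‖ * ‖y‖ := by rw [← sq]; exact h1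
      exact le_of_mul_le_mul_left this h0
  · rw [ContinuousLinearMapWOT.le_nhds_iff_forall_inner_apply_le_nhds]
    intro x y
    rw [hT]
    exact hB2 y x

end Pool.Agent.Helper278
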